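import Pool.Agent.H897.YE

/-!
MP_cda8c3_ag, Q1: spaces of tensor differentials with values in a divisor `L`, if the tangent sheaf
is stable with respect to a movable class on which the degree of `L` is not positive.

**The pair.** `NormalModel y` (`Y172/Defs.lean`): `y` is the generic point, in homogeneous
coordinates, of a normal projective variety `X` with function field `K`. `Δ` is an effective
`ℚ`-divisor, with the coefficient `Δ P` at the prime divisor `P` (`IsPrimeDivisor y P`); `Δ = 0` is the
case of Q1. `IsSection y n d D ω`: `ω` is a section of `d K_X + D`. It is not necessary that the pair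
is klt.

**The movable class** (`H897/RG.lean`). `MovableClass y α`: `α` is a linear function on the divisors
which is nonnegative on the prime divisors (`α P` is the degree of `P`) and `0` on principal divisors.
`HasDeg y α e s`: the divisor `∑ e P • P` has the degree `s`. `LogDegree y n Δ α c`: the degree of
`K_X + Δ` is `c`. For example, if `L` is nef, `ν = ν (L)` is its numerical dimension, `ν < n`, and `H` is
ample, then `α = L ^ ν . H ^ (n - 1 - ν)` has the degree `0` on `L`; if `K_X + Δ` is numerically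
trivial then `c = 0`.

**Stability** (`RF.lean`, `RG.lean`). `StableTangent y n Δ α c`: the orbifold tangent sheaf
`T (X, Δ)` is `α`-stable. `WedgeOrd n δ P D e`: `e` is the order along `P` of
`D 0 ∧ ⋯ ∧ D (r - 1)` as a rational section of the exterior power of `T (X, Δ)`, computed in an adapted
frame `E i`, `i ≠ i0`, `x ^ δ • E i0`; for `0 < r < n` and linearly independent rational vector fields
`D 0, ..., D (r - 1)` the degree `∑ e P • α P` is smaller than `- r c / n`.

**The tensors** (`TS.lean`, `RH.lean`, `YD.lean`). `Twisted a T`: `T` is a rational section of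
`(Ω¹) ^ ⊗ m ⊗ O (a K_X)`, given as a tensor `T E` which depends on the choice of a basis `E` of
the rational vector fields (`IsFrame E`) and is multiplied with `det A ^ a` if `E` is changed by the
matrix `A`. `OrbAtL δ ℓ P a T`: along the prime divisor `P` with the coefficients `δ = Δ P`, `ℓ = L P`
it is a section of the `m`-th tensor power of the orbifold cotangent sheaf `Ω¹ (X, Δ)` with values in
`a (K_X + Δ) + L`: on vector fields which are regular along `P`, of which at most those with indices
in `S` are not tangent to `P`, its order is at least `- (δ (|S| + a) + ℓ)`. `IsTensor y n Δ L a m T`: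
both hold, for all prime divisors. For `Δ = 0`, `a = 0` these are the reflexive tensor differentials
with values in `L`, for instance the `L`-valued `m`-forms.

`IitakaGe y L h` (`Y191/CorCP.lean`): `κ (L) ≥ h`, i.e. for some `k ≥ 1` there are sections of `k L`
whose ratios contain `h` algebraically independent functions (in particular `k L` has a nonzero
section).

**Theorem.** Let `n, m ≥ 1`. There is a number `M ≥ 1`, which depends only on `n` and `m`, with the
following properties. Let `X` be a normal projective variety of dimension `n`, `Δ` an effective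
`ℚ`-divisor and `α` a movable class such that `T (X, Δ)` is `α`-stable, `c = (K_X + Δ) . α`.

(1) Let `p = m + n a ≥ 0`, and let `L` be a `ℚ`-divisor with `n L . α ≤ - p c`, i.e. the slope of
`Ω¹ (X, Δ) ^ ⊗ m ⊗ O (a (K_X + Δ) + L)` is at most `0`. Then
`h⁰ (Ω¹ (X, Δ) ^ ⊗ m ⊗ O (a (K_X + Δ) + L)) ≤ n ^ m h⁰ (M (p (K_X + Δ) + n L))`:
if there are `R` independent tensors then there are `s ≥ R / n ^ m` independent sections.

(2) Let `m + n a = 0` and `L . α ≤ 0` (with any `c`). Then either
`h⁰ (Ω¹ (X, Δ) ^ ⊗ m ⊗ O (a (K_X + Δ) + k L)) = 0` for all `k ≥ 1`, or there are `h ≤ κ (L)` and `C`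
such that `h⁰ (Ω¹ (X, Δ) ^ ⊗ m ⊗ O (a (K_X + Δ) + k L)) ≤ C k ^ h` for all `k ≥ 1`.

(3) Let `n ≥ 2` and `c ≤ 0`. Under the hypotheses of (1), tensors which are linearly independent over
`ℂ` are linearly independent over the function field `K`. So their number is at most `n ^ m`, and a
tensor is determined by its value at a general point (as for parallel tensors).

(4) Let `n ≥ 2` and `c ≤ 0`. If the degree of `D = d (K_X + Δ) + L` is at most `0` then two
sections of `D` are proportional, `h⁰ (D) ≤ 1`.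

(5) Let `n ≥ 2` and `c ≤ 0`. Then `κ (L) ≤ 0` for every `ℚ`-divisor `L` with `L . α ≤ 0`. In other
words: if `(K_X + Δ) . α ≤ 0`, `L . α ≤ 0` and `κ (L) ≥ 1` then `T (X, Δ)` is not `α`-stable.

**The relation to Q1.** Let `X`, `L` be as in Q1, `n ≥ 2`, with `L` not numerically trivial and not
big, and let `α` be the class above, so `c = 0` and `L . α = 0`. If `T_X` is `α`-stable then by (5)
`κ (L) ≤ 0`, and `L` is not semiample. So Q1 implies that `T_X` is not
`α`-stable, i.e. that there is a distribution with nonnegative `α`-degree, and the first step of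
a proof of Q1 is to find it. By (3) this is achieved if for some `m ≥ 1` and some integer `k` there
are more than `n ^ m` independent sections of `(Ω¹) ^ ⊗ m ⊗ O (k L)`, or only two sections `T`, `T'`
with `T' = f T`, `f` a nonconstant function. Such tensors may exist, e.g. by the Theorem of
Riemann-Roch, also if nothing is known on the sections of `k L`. (These consequences are not
formalized, only the bounds.)

**Proof.** Let `V` be the space of tensors, `r ≤ n ^ m` the dimension of its span over `K`,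
`T 1, ..., T r` in `V` a basis of the span, `u = T 1 ∧ ⋯ ∧ T r`, a tensor of degree `r m` with
values in `r (a (K_X + Δ) + L)`. By the theorem of Kempf and Ramanan-Ramanathan in the version for
movable classes (`stable_inv`) there is a semi-invariant `Q` of `GL n` with `Q (u) ≠ 0`; one can
choose `Q` in a finite set, of a weight which depends only on `n`, `m`. If `T = ∑ f i T i` is in `V` then
`f i u` is the product in which `T i` is replaced by `T`, so it satisfies the same local conditions as
`u`. Hence `f i Q (u) ^ n` is a section of `M (p (K_X + Δ) + n L)`. So the space of all the `f i` (for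
one `i`) is embedded into the space of these sections, and `V` is embedded into the product of `r` such
spaces. (2) follows with the estimate for the growth of `h⁰ (k L)` by the Iitaka dimension
(`iitaka_bound`). (4): if `ω`, `η` are two sections of `D` then `ω dη - η dω` is a section of
`Ω¹ (X, Δ) ⊗ O (2 D)`, and a nonzero vector of dimension `n ≥ 2` has no semi-invariant. (3) follows
from (4), since the space of the `f i` is of dimension at most `1`.
-/

set_option autoImplicit false

open FF Pool.Agent.W602.GT Pool.Agent.Y172 Pool.Agent.Y191 Pool.Agent.NH31 Pool.Agent.H897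

namespace Pool.Agent.Results.MP_cda8c3_ag.TensorGrowth

section

variable {K : Type} [Field K] [Algebra ℂ K] {N : ℕ}

/-- `T` is a family of `R` sections of `Ω¹ (X, Δ) ^ ⊗ m ⊗ O (a (K_X + Δ) + L)` which are linearly
independent over `ℂ`. -/
def TensorFamily (y : Fin (N + 1) → K) (n : ℕ) (Δ L : Place ℂ K → ℚ) (a : ℤ) (m R : ℕ)
    (T : Fin R → (Fin n → Derivation ℂ K K) →
      MultilinearMap K (fun _ : Fin m => Derivation ℂ K K) K) : Prop :=
  (∀ i, IsTensor y n Δ L a m (T i)) ∧ ∃ E, IsFrame E ∧ LinearIndependent ℂ fun i => T i E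

/-- `p = m + n a ≥ 0` and `n L . α ≤ - p c`. -/
def SlopeLe (y : Fin (N + 1) → K) (n : ℕ) (α : Place ℂ K → ℝ) (c : ℝ) (L : Place ℂ K → ℚ) (a : ℤ)
    (m p : ℕ) : Prop :=
  (p : ℤ) = m + n * a ∧ ∃ lam : ℝ, HasDeg y α (fun P => L P) lam ∧ n * lam ≤ -(p * c)

/-- (1): `h⁰ (Ω¹ (X, Δ) ^ ⊗ m ⊗ O (a (K_X + Δ) + L)) ≤ n ^ m h⁰ (M (p (K_X + Δ) + n L))`. -/
def SectionBound (y : Fin (N + 1) → K) (n : ℕ) (Δ : Place ℂ K → ℚ) (α : Place ℂ K → ℝ) (c : ℝ)
    (m M : ℕ) : Prop :=
  ∀ (a : ℤ) (p : ℕ) (L : Place ℂ K → ℚ) (R : ℕ) (T : Fin R → (Fin n → Derivation ℂ K K) →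
      MultilinearMap K (fun _ : Fin m => Derivation ℂ K K) K),
    SlopeLe y n α c L a m p → TensorFamily y n Δ L a m R T →
    ∃ (s : ℕ) (ω : Fin s → (Fin n → Derivation ℂ K K) → K), R ≤ n ^ m * s ∧
      LinearIndependent ℂ ω ∧ ∀ i, IsSection y n (M * p) ((M * p) • Δ + (M * n) • L) (ω i)

/-- (2): the growth of `h⁰ (Ω¹ (X, Δ) ^ ⊗ m ⊗ O (a (K_X + Δ) + k L))`, `m + n a = 0`, is bounded by
`k ^ κ (L)`. -/
def GrowthBound (y : Fin (N + 1) → K) (n : ℕ) (Δ : Place ℂ K → ℚ) (α : Place ℂ K → ℝ) (m : ℕ) :
    Prop :=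
  ∀ (a : ℤ) (L : Place ℂ K → ℚ) (lam : ℝ), (m : ℤ) + n * a = 0 →
    HasDeg y α (fun P => L P) lam → lam ≤ 0 →
    (∀ k : ℕ, 1 ≤ k → ∀ T, IsTensor y n Δ (k • L) a m T → ∀ E, IsFrame E → T E = 0) ∨
      ∃ h C : ℕ, IitakaGe y L h ∧ ∀ (k R : ℕ) (T : Fin R → (Fin n → Derivation ℂ K K) →
        MultilinearMap K (fun _ : Fin m => Derivation ℂ K K) K),
          1 ≤ k → TensorFamily y n Δ (k • L) a m R T → R ≤ C * k ^ h

/-- (3): tensors which are linearly independent over `ℂ` are linearly independent over `K`. -/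
def TensorsIndependent (y : Fin (N + 1) → K) (n : ℕ) (Δ : Place ℂ K → ℚ) (α : Place ℂ K → ℝ) (c : ℝ)
    (m : ℕ) : Prop :=
  ∀ (a : ℤ) (p : ℕ) (L : Place ℂ K → ℚ) (R : ℕ) (T : Fin R → (Fin n → Derivation ℂ K K) →
      MultilinearMap K (fun _ : Fin m => Derivation ℂ K K) K),
    SlopeLe y n α c L a m p → TensorFamily y n Δ L a m R T →
    R ≤ n ^ m ∧ ∀ E, IsFrame E → LinearIndependent K fun i => T i E

/-- (4): two sections of `d (K_X + Δ) + L` are proportional if its degree is at most `0`. -/
def SectionsProportional (y : Fin (N + 1) → K) (n : ℕ) (Δ : Place ℂ K → ℚ) (α : Place ℂ K → ℝ)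
    (c : ℝ) : Prop :=
  ∀ (d : ℕ) (L : Place ℂ K → ℚ) (lam : ℝ) (ω η : (Fin n → Derivation ℂ K K) → K),
    HasDeg y α (fun P => L P) lam → d * c + lam ≤ 0 → IsSection y n d (d • Δ + L) ω →
    IsSection y n d (d • Δ + L) η → η ≠ 0 → ∃ z : ℂ, ω = z • η

end

/-- **Spaces of tensors on pairs with a stable tangent sheaf.** -/
theorem result (n m : ℕ) (hn1 : 1 ≤ n) (hm : 1 ≤ m) : ∃ M : ℕ, 1 ≤ M ∧
    ∀ (K : Type) [Field K] [Algebra ℂ K] (N : ℕ) (y : Fin (N + 1) → K), NormalModel y →
      Algebra.trdeg ℂ K = n → ∀ (Δ : Place ℂ K → ℚ) (α : Place ℂ K → ℝ) (c : ℝ),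
        Effective y Δ → MovableClass y α → LogDegree y n Δ α c → StableTangent y n Δ α c →
      SectionBound y n Δ α c m M ∧ GrowthBound y n Δ α m ∧
      (2 ≤ n → c ≤ 0 → TensorsIndependent y n Δ α c m ∧ SectionsProportional y n Δ α c ∧
        ∀ (L : Place ℂ K → ℚ) (lam : ℝ), HasDeg y α (fun P => L P) lam → lam ≤ 0 →
          ¬ IitakaGe y L 1) := by
  obtain ⟨M, hM, hmain⟩ := tens_growth n m hn1 hm
  refine ⟨M, hM, ?_⟩
  intro K _ _ N y hy hn Δ α c hΔ hα hc hst
  have h1 : ∀ (a : ℤ) (p : ℕ) (L : Place ℂ K → ℚ) (lam : ℝ) (R : ℕ)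
      (T : Fin R → (Fin n → Derivation ℂ K K) →
        MultilinearMap K (fun _ : Fin m => Derivation ℂ K K) K), (p : ℤ) = m + n * a →
      HasDeg y α (fun P => L P) lam → n * lam ≤ -(p * c) → (∀ i, IsTensor y n Δ L a m (T i)) →
      (∃ E, IsFrame E ∧ LinearIndependent ℂ fun i => T i E) →
      ∃ (r s : ℕ) (b : Fin r → Fin R) (ω : Fin s → (Fin n → Derivation ℂ K K) → K),
        (∀ E, IsFrame E → LinearIndependent K fun i => T (b i) E) ∧ r ≤ n ^ m ∧ R ≤ r * s ∧
        LinearIndependent ℂ ω ∧
        ∀ i, IsSection y n (M * p) ((M * p) • Δ + (M * n) • L) (ω i) := by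
    intro a p L lam R T hp hL hdeg hT hTE
    exact hmain K N y hy hn Δ α c hΔ.2 hα hc hst a p L lam hp hL hdeg R T (fun i => (hT i).1)
      (fun i => (hT i).2) hTE
  refine ⟨?_, ?_, fun hn2 hc0 => ⟨?_, ?_, ?_⟩⟩
  · rintro a p L R T ⟨hp, lam, hL, hdeg⟩ ⟨hT, hTE⟩
    obtain ⟨r, s, b, ω, -, hr, hR, hω, hs⟩ := h1 a p L lam R T hp hL hdeg hT hTE
    exact ⟨s, ω, hR.trans (Nat.mul_le_mul_right s hr), hω, hs⟩
  · intro a L lam ha hL hlam
    have hLf : FinSup y L := by
      obtain ⟨S, -, hS, -⟩ := hL
      refine S.finite_toSet.subset ?_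
      rintro P ⟨hP, h0⟩
      by_contra hPS
      have h2 : (L P : ℝ) = 0 := hS P hP hPS
      exact h0 (by exact_mod_cast h2)
    have h2 := iitaka_growth hy hn hLf (B := n ^ m) (q := M * n) (Nat.mul_pos hM hn1)
      (S := fun k R => ∃ T : Fin R → (Fin n → Derivation ℂ K K) →
          MultilinearMap K (fun _ : Fin m => Derivation ℂ K K) K,
        (∀ i, IsTensor y n Δ (k • L) a m (T i)) ∧
        ∃ E, IsFrame E ∧ LinearIndependent ℂ fun i => T i E) (by
        rintro k hk R ⟨T, hT, hTE⟩
        obtain ⟨r, s, b, ω, -, hr, hR, hω, hs⟩ := h1 a 0 (k • L) (k * lam) R T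
          (by rw [ha]; rfl) (hasDeg_smul hL k) (by
            push_cast
            rw [zero_mul, neg_zero]
            have h5 : (0 : ℝ) ≤ (n : ℝ) * k := by positivity
            nlinarith) hT hTE
        obtain ⟨h, hh, hhs⟩ := fn_of_zero hy hn (Δ := Δ) (U := (M * n) • (k • L)) hω
          (fun i => by
            have h3 := hs i
            rwa [mul_zero] at h3)
        refine ⟨s, h, hR.trans (Nat.mul_le_mul_right s hr), hh, fun i => ?_⟩
        have h3 := hhs i
        rwa [smul_smul] at h3)
    rcases h2 with h2 | ⟨h, C, hI, hC⟩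
    · left
      intro k hk T hT E hE
      by_contra h0
      exact h2 k hk ⟨fun _ => T, fun _ => hT, E, hE, linearIndependent_unique_iff.2 h0⟩
    · exact Or.inr ⟨h, C, hI, fun k R T hk hT => hC k hk R ⟨T, hT.1, hT.2⟩⟩
  · rintro a p L R T ⟨hp, lam, hL, hdeg⟩ ⟨hT, hTE⟩
    obtain ⟨r, s, b, ω, hb, hr, hR, hω, hs⟩ := h1 a p L lam R T hp hL hdeg hT hTE
    have h2 : s ≤ 1 := sec_dim hy hn hn2 hΔ hα hc hc0 hst (hasDeg_smul hL (M * n)) (by
      push_cast
      have h3 : (0 : ℝ) ≤ M := Nat.cast_nonneg M
      nlinarith [mul_le_mul_of_nonneg_left hdeg h3]) hω hs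
    have h3 : R ≤ r := hR.trans ((Nat.mul_le_mul_left r h2).trans (mul_one r).le)
    exact ⟨h3.trans hr, fun E hE => indep_of_card (v := fun i => T i E) (hb E hE) h3⟩
  · intro d L lam ω η hL hdeg hω hη hη0
    exact two_sec hy hn hn2 hΔ hα hc hc0 hst hL hdeg hω hη hη0
  · intro L lam hL hlam
    exact not_iitaka hy hn hn2 hΔ hα hc hc0 hst hL hlam

end Pool.Agent.Results.MP_cda8c3_ag.TensorGrowth
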