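import Mathlib
import Pool.Agent.H890.Top4

/-!
MP_cda8c3_ag, Q1: the boundary can be removed. The statement for klt pairs `(X, Δ)` with
`K_X + Δ ∼ 0` over `ℚ` and a `ℚ`-Cartier boundary `Δ` follows from the statement for klt varieties.
-/

set_option autoImplicit false

namespace Pool.Agent.Results.MP_cda8c3_ag.TrivialPairs

open FF Pool.Agent.Y172 Pool.Agent.R887 Pool.Agent.H890

/-- (1) Let `(X, Δ)` be a projective klt pair over `ℂ`, `X` of dimension `n ≥ 1` with function field
`K` (`y` is its generic point, in homogeneous coordinates), `Δ` an effective `ℚ`-divisor such that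
`b Δ` is Cartier, `b ≥ 2`. Then there is a normal projective variety `V` of dimension `n + 2 b - 2`,
with generic point `v` and function field `M`, birational to `X × P ^ (2 b - 2)` (`M` is the field of
rational functions in `2 b - 2` variables `t` over `K`), such that

* `V` is klt (without boundary);
* `K_V` is `ℚ`-linearly equivalent to zero if `K_X + Δ` is `ℚ`-linearly equivalent to zero;
* the irregularity of `V` is zero if the irregularity of `X` is zero;
* every nef divisor `E` on `X` has a nef pull-back to `V`, which is semiample if and only if `E` is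
  semiample.

(2) Hence Q1 (every nef divisor on a klt variety `X` with `K_X` `ℚ`-linearly equivalent to zero and
irregularity zero is semiample, in all dimensions) is equivalent to the same statement for the klt
pairs `(X, Δ)` (every nef divisor on `X` is semiample if `K_X + Δ` is `ℚ`-linearly equivalent to zero
and the irregularity of `X` is zero, in all dimensions) such that `Δ` is an effective `ℚ`-divisor and
some multiple `b Δ`, `b ≥ 1`, is Cartier. -/
theorem result :
    (∀ (K : Type) [Field K] [Algebra ℂ K] (n b N : ℕ) (y : Fin (N + 1) → K)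
      (Δ : Place ℂ K → ℚ), Algebra.trdeg ℂ K = n → 1 ≤ n → 2 ≤ b → NormalModel y →
      Effective y Δ → CartierMul y n b Δ → Klt y n Δ →
      ∃ (M : Type) (_ : Field M) (_ : Algebra ℂ M) (_ : Algebra K M) (_ : IsScalarTower ℂ K M)
        (t : Fin (2 * b - 2) → M) (N' : ℕ) (v : Fin (N' + 1) → M), AlgebraicIndependent K t ∧
        IntermediateField.adjoin K (Set.range t) = ⊤ ∧
        TrivialReplaces v (n + (2 * b - 2)) y n Δ) ∧
    ((∀ (K : Type) [Field K] [Algebra ℂ K] (n : ℕ), Algebra.trdeg ℂ K = n →
        TrivialVarietyAbundance K n) ↔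
      ∀ (K : Type) [Field K] [Algebra ℂ K] (n b : ℕ), Algebra.trdeg ℂ K = n → 1 ≤ b →
        TrivialPairAbundance K n b) :=
  ⟨fun K _ _ _ _ _ _ _ hn hn1 hb hy hΔ hcar hklt =>
    trivial_removal K hb hn1 hn hy hΔ hcar hklt, trivial_equivalence⟩

end Pool.Agent.Results.MP_cda8c3_ag.TrivialPairs
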